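import Pool.Agent.N714.Sym.Basic

/-!
# Sets with two noncommuting affine symmetries have unbounded representation counts at every density

Let `A` be a nonempty set of natural numbers which is mapped into itself by two affine maps `x ↦ α₁ x + β₁` and
`x ↦ α₂ x + β₂`, where `α₁, α₂ ≥ 1` and `β₁, β₂` are integers.  If these maps do not commute, then `1_A ∗ 1_A (n) ≥ n ^ c`
for infinitely many `n`, for some `c > 0`.  Nothing is assumed about the counting function of `A`.  The same is true for the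
sums of `h` elements, `h ≥ 2`, also if the order of the summands is disregarded.
-/

set_option autoImplicit false

open Filter

namespace Pool.Agent.Results.MP_491344_nt.NoncommutingSymmetries

/-- `1_A ∗ 1_A (n)`: the number of ordered representations of `n` as a sum of two elements of `A` -/
noncomputable def conv (A : Set ℕ) (n : ℕ) : ℕ := {p : ℕ × ℕ | p.1 ∈ A ∧ p.2 ∈ A ∧ p.1 + p.2 = n}.ncard

/-- the number of representations of `n` as a sum of `h` elements of `A`, the order being disregarded -/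
noncomputable def rep (A : Set ℕ) (h n : ℕ) : ℕ :=
  {s : Multiset ℕ | Multiset.card s = h ∧ (∀ a ∈ s, a ∈ A) ∧ s.sum = n}.ncard

/-- the map `x ↦ α x + β` sends `A` into itself -/
def Symm (A : Set ℕ) (α : ℕ) (β : ℤ) : Prop := ∀ a ∈ A, ∃ b ∈ A, (b : ℤ) = α * a + β

theorem rep_le_conv (A : Set ℕ) (n : ℕ) : rep A 2 n ≤ conv A n := by
  have hfin : {p : ℕ × ℕ | p.1 ∈ A ∧ p.2 ∈ A ∧ p.1 + p.2 = n}.Finite := by
    refine ((Set.finite_Iic n).prod (Set.finite_Iic n)).subset ?_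
    rintro ⟨a, b⟩ ⟨-, -, h⟩
    simp only at h
    exact ⟨by simp only [Set.mem_Iic]; omega, by simp only [Set.mem_Iic]; omega⟩
  have hsub : {s : Multiset ℕ | Multiset.card s = 2 ∧ (∀ a ∈ s, a ∈ A) ∧ s.sum = n} ⊆
      (fun p : ℕ × ℕ => ({p.1, p.2} : Multiset ℕ)) '' {p : ℕ × ℕ | p.1 ∈ A ∧ p.2 ∈ A ∧ p.1 + p.2 = n} := by
    rintro s ⟨h1, h2, h3⟩
    obtain ⟨a, b, rfl⟩ := Multiset.card_eq_two.1 h1
    refine ⟨(a, b), ⟨h2 a (by simp), h2 b (by simp), ?_⟩, rfl⟩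
    simpa using h3
  exact (Set.ncard_le_ncard hsub (hfin.image _)).trans (Set.ncard_image_le hfin)

theorem result (A : Set ℕ) (hA : A.Nonempty) (α₁ α₂ : ℕ) (β₁ β₂ : ℤ) (h₁ : 1 ≤ α₁) (h₂ : 1 ≤ α₂)
    (s₁ : Symm A α₁ β₁) (s₂ : Symm A α₂ β₂)
    (hne : ∃ x : ℤ, α₁ * (α₂ * x + β₂) + β₁ ≠ α₂ * (α₁ * x + β₁) + β₂) :
    (∃ c : ℝ, 0 < c ∧ ∃ᶠ n : ℕ in atTop, (n : ℝ) ^ c ≤ conv A n) ∧
    ∀ h : ℕ, 2 ≤ h → ∃ c : ℝ, 0 < c ∧ ∃ᶠ n : ℕ in atTop, (n : ℝ) ^ c ≤ rep A h n := by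
  obtain ⟨x, hx⟩ := hne
  have hδ : (α₂ * β₁ + β₂ : ℤ) - (α₁ * β₂ + β₁) ≠ 0 := fun h0 => hx (by linear_combination -h0)
  have hα : 2 ≤ α₁ * α₂ := by
    by_contra hcon
    have h3 : α₁ * α₂ ≤ 1 := by omega
    have h4 : α₁ ≤ α₁ * α₂ := Nat.le_mul_of_pos_right _ h₂
    have h5 : α₂ ≤ α₁ * α₂ := Nat.le_mul_of_pos_left _ h₁
    have h6 : α₁ = 1 := by omega
    have h7 : α₂ = 1 := by omega
    subst h6 h7
    apply hx
    push_cast
    ring
  have key : ∀ h : ℕ, 2 ≤ h → ∃ c : ℝ, 0 < c ∧ ∃ᶠ n : ℕ in atTop, (n : ℝ) ^ c ≤ rep A h n := by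
    intro h hh
    refine Pool.Agent.N714.Sym.noncomm (A := A) hα (γ := α₁ * β₂ + β₁) hδ ?_ ?_ hA h hh
    · intro a ha
      obtain ⟨b, hb, hb'⟩ := s₂ a ha
      obtain ⟨c, hc, hc'⟩ := s₁ b hb
      refine ⟨c, hc, ?_⟩
      rw [hc', hb']
      push_cast
      ring
    · intro a ha
      obtain ⟨b, hb, hb'⟩ := s₁ a ha
      obtain ⟨c, hc, hc'⟩ := s₂ b hb
      refine ⟨c, hc, ?_⟩
      rw [hc', hb']
      push_cast
      ring
  refine ⟨?_, key⟩
  obtain ⟨c, hc, hf⟩ := key 2 le_rfl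
  exact ⟨c, hc, hf.mono fun n hn => hn.trans (by exact_mod_cast rep_le_conv A n)⟩

end Pool.Agent.Results.MP_491344_nt.NoncommutingSymmetries
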