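import Mathlib
import Pool.Agent.Y940.ES.Main

/-!
# MP_491344_nt: unions of sets with few numbers having four representations

`rep A n` is the number of ordered pairs of elements of `A` with sum `n`, `dif A N d` the number of
ways to write `d` as a difference of two elements of `A ∩ [0, N]`, and `elt A n` the `n`-th element
of `A`.

1. Let `a_n ≤ C n²` for `n ≥ 1` and `r_A ≤ K`. For every colouring of `A` with `k` colours and all
   `N ≥ exp (B k²)` at least `exp (-B k²) N` of the `n ≤ N` have four or more ordered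
   representations `n = a + b` with `a, b` of the same colour; for `N ≥ exp (B k² l)` at least
   `exp (-B k² l) N` of the `d ≤ N` have `l` or more representations as a difference of two
   elements `≤ N` of the same colour (the same one for all these representations).
   Here `B = B (C, K)`.
2. Let `S_1, ..., S_k` be sets such that for every `ε > 0` there are arbitrarily large `N` such that
   at most `ε N` of the `n ≤ N` have four or more representations as a sum inside some `S_i`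
   (or such that for some `l` the same holds for `l` or more representations as a difference).
   Then some function `g` with `g(N) → ∞` forces unbounded representations inside
   `S_1 ∪ ... ∪ S_k`: every subset `A` with `|A ∩ [1, N]| ≫ √N / g(N)` has unbounded `r_A`.
-/

set_option autoImplicit false

open Filter Topology

namespace Pool.Agent.Results.MP_491344_nt.SparselyRepresented

/-- `r_A(n)`: the number of ordered pairs of elements of `A` with sum `n` -/
noncomputable def rep (A : Set ℕ) (n : ℕ) : ℕ :=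
  {p : ℕ × ℕ | p.1 ∈ A ∧ p.2 ∈ A ∧ p.1 + p.2 = n}.ncard

/-- the number of `b ∈ A` with `b + d ∈ A` and `b + d ≤ N` -/
noncomputable def dif (A : Set ℕ) (N d : ℕ) : ℕ :=
  {b : ℕ | b ∈ A ∧ b + d ∈ A ∧ b + d ≤ N}.ncard

/-- the `n`-th element of `A`, counted from `n = 1` -/
noncomputable def elt (A : Set ℕ) (n : ℕ) : ℕ := Nat.nth (fun a => a ∈ A) (n - 1)

/-- `g` forces unbounded representations inside `S`: every `A ⊆ S` with
`|A ∩ [1, N]| ≫ √N / g(N)` has an unbounded representation function -/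
def ForcesIn (S : Set ℕ) (g : ℕ → ℝ) : Prop :=
  ∀ A : Set ℕ, A ⊆ S →
    (∃ c : ℝ, 0 < c ∧ ∀ᶠ N : ℕ in atTop,
        c * Real.sqrt (N : ℝ) / g N ≤ ((A ∩ Set.Icc 1 N).ncard : ℝ)) →
    ∀ M : ℕ, ∃ n : ℕ, M ≤ rep A n

open Classical in
/-- for every `ε > 0` and arbitrarily large `N`, at most `ε N` of the `n ≤ N` have four or more
representations as a sum inside one of the sets `S i` -/
def FewSums {k : ℕ} (S : Fin k → Set ℕ) : Prop :=
  ∀ ε : ℝ, 0 < ε → ∃ᶠ N : ℕ in atTop,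
    (((Finset.Icc 1 N).filter (fun n => ∃ i, 4 ≤ rep (S i) n)).card : ℝ) ≤ ε * N

open Classical in
/-- for every `ε > 0` and arbitrarily large `N`, at most `ε N` of the `d ≤ N` have `l` or more
representations as a difference of elements `≤ N` inside one of the sets `S i` -/
def FewDifferences {k : ℕ} (S : Fin k → Set ℕ) (l : ℕ) : Prop :=
  ∀ ε : ℝ, 0 < ε → ∃ᶠ N : ℕ in atTop,
    (((Finset.Icc 1 N).filter (fun d => ∃ i, l ≤ dif (S i) N d)).card : ℝ) ≤ ε * N

lemma rep_congr {A B : Set ℕ} {n : ℕ} (h : ∀ a ≤ n, a ∈ A ↔ a ∈ B) : rep A n = rep B n := by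
  unfold rep
  congr 1
  ext p
  constructor
  · rintro ⟨h2, h3, h1⟩
    exact ⟨(h _ (by omega)).1 h2, (h _ (by omega)).1 h3, h1⟩
  · rintro ⟨h2, h3, h1⟩
    exact ⟨(h _ (by omega)).2 h2, (h _ (by omega)).2 h3, h1⟩

lemma count_congr {A B : Set ℕ} {N : ℕ} (h : ∀ a ≤ N, a ∈ A ↔ a ∈ B) :
    A ∩ Set.Icc 1 N = B ∩ Set.Icc 1 N := by
  ext a
  simp only [Set.mem_inter_iff, Set.mem_Icc]
  constructor
  · rintro ⟨h1, h2, h3⟩
    exact ⟨(h _ h3).1 h1, h2, h3⟩
  · rintro ⟨h1, h2, h3⟩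
    exact ⟨(h _ h3).2 h1, h2, h3⟩

/-- compactness: the forcing is visible on a finite interval -/
lemma compactness {S : Set ℕ} {g : ℕ → ℝ} (hg : ForcesIn S g) {c : ℝ} (hc : 0 < c) (k M : ℕ) :
    ∃ M' : ℕ, M ≤ M' ∧ ∀ A : Set ℕ, A ⊆ S →
      (∀ N, M ≤ N → N ≤ M' → c * Real.sqrt (N : ℝ) / g N ≤ ((A ∩ Set.Icc 1 N).ncard : ℝ)) →
      ∃ n, k < rep A n := by
  classical
  by_contra hcon
  push Not at hcon
  have hcon' : ∀ M' : ℕ, ∃ A : Set ℕ, A ⊆ S ∧
      (∀ N, M ≤ N → N ≤ M + M' →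
        c * Real.sqrt (N : ℝ) / g N ≤ ((A ∩ Set.Icc 1 N).ncard : ℝ)) ∧
      ∀ n, rep A n ≤ k := fun M' => hcon (M + M') (Nat.le_add_right _ _)
  choose F hF0 hF1 hF2 using hcon'
  set U : Ultrafilter ℕ := hyperfilter ℕ with hU
  let A : Set ℕ := {a | ∀ᶠ i in (U : Filter ℕ), a ∈ F i}
  have hagree1 : ∀ a : ℕ, ∀ᶠ i in (U : Filter ℕ), (a ∈ A ↔ a ∈ F i) := by
    intro a
    by_cases ha : a ∈ A
    · have : ∀ᶠ i in (U : Filter ℕ), a ∈ F i := ha
      filter_upwards [this] with i hi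
      exact ⟨fun _ => hi, fun _ => ha⟩
    · have h1 : ¬ ∀ᶠ i in (U : Filter ℕ), a ∈ F i := ha
      have h2 : ∀ᶠ i in (U : Filter ℕ), ¬ a ∈ F i := Ultrafilter.eventually_not.2 h1
      filter_upwards [h2] with i hi
      exact ⟨fun h => absurd h ha, fun h => absurd h hi⟩
  have hagree : ∀ n : ℕ, ∀ᶠ i in (U : Filter ℕ), ∀ a ≤ n, (a ∈ A ↔ a ∈ F i) := by
    intro n
    have : ∀ᶠ i in (U : Filter ℕ), ∀ a ∈ Finset.range (n + 1), (a ∈ A ↔ a ∈ F i) :=
      (Filter.eventually_all_finset _).2 (fun a _ => hagree1 a)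
    filter_upwards [this] with i hi a ha
    exact hi a (Finset.mem_range.2 (by omega))
  have hlarge : ∀ N : ℕ, ∀ᶠ i in (U : Filter ℕ), N ≤ i := by
    intro N
    have h1 : (U : Filter ℕ) ≤ cofinite := hyperfilter_le_cofinite
    rw [Nat.cofinite_eq_atTop] at h1
    exact h1 (eventually_ge_atTop N)
  have hA1 : ∀ n, rep A n ≤ k := by
    intro n
    obtain ⟨i, hi⟩ := (hagree n).exists
    rw [rep_congr hi]
    exact hF2 i n
  have hA2 : ∀ N, M ≤ N → c * Real.sqrt (N : ℝ) / g N ≤ ((A ∩ Set.Icc 1 N).ncard : ℝ) := by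
    intro N hN
    obtain ⟨i, hi1, hi2⟩ := ((hagree N).and (hlarge N)).exists
    rw [count_congr hi1]
    exact hF1 i N hN (by omega)
  have hA0 : A ⊆ S := by
    intro a ha
    have h1 : ∀ᶠ i in (U : Filter ℕ), a ∈ F i := ha
    obtain ⟨i, hi⟩ := h1.exists
    exact hF0 i hi
  obtain ⟨n, hn⟩ := hg A hA0 ⟨c, hc, eventually_atTop.2 ⟨M, hA2⟩⟩ (k + 1)
  have := hA1 n
  omega

/-- diagonal construction -/
lemma diagonal {S : Set ℕ} (G : ℕ → ℕ → ℝ) (hpos : ∀ j N, 0 < G j N) (hmono : ∀ j N, G j N ≤ G (j + 1) N)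
    (hF : ∀ j, ForcesIn S (G j)) :
    ∃ g : ℕ → ℝ, ForcesIn S g ∧ ∀ j, Tendsto (fun N => g N / G j N) atTop atTop := by
  classical
  have key : ∀ j M : ℕ, ∃ M' : ℕ, M ≤ M' ∧ ∀ A : Set ℕ, A ⊆ S →
      (∀ N, M ≤ N → N ≤ M' →
        (1 / ((j : ℝ) + 1) ^ 2) * Real.sqrt (N : ℝ) / G j N ≤ ((A ∩ Set.Icc 1 N).ncard : ℝ)) →
      ∃ n, j < rep A n := fun j M => compactness (hF j) (by positivity) j M
  choose E hE1 hE2 using key
  obtain ⟨T, hT0, hT⟩ : ∃ T : ℕ → ℕ, T 0 = 0 ∧ ∀ j, T (j + 1) = E j (T j) + 1 :=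
    ⟨fun j => Nat.rec 0 (fun j t => E j t + 1) j, rfl, fun j => rfl⟩
  have hTlt : ∀ j, T j < T (j + 1) := by
    intro j
    rw [hT]
    have := hE1 j (T j)
    omega
  have hTmono : StrictMono T := strictMono_nat_of_lt_succ hTlt
  let J : ℕ → ℕ := fun N => Nat.findGreatest (fun j => T j ≤ N) N
  have hJ : ∀ N j, T j ≤ N → N < T (j + 1) → J N = j := by
    intro N j h1 h2
    have hjN : j ≤ N := le_trans (hTmono.id_le j) h1
    apply le_antisymm
    · by_contra hlt
      push Not at hlt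
      have h3 : T (J N) ≤ N := Nat.findGreatest_spec (P := fun j => T j ≤ N) (m := j) hjN h1
      have h4 : T (j + 1) ≤ T (J N) := hTmono.monotone hlt
      omega
    · exact Nat.le_findGreatest hjN h1
  have hJle : ∀ N j, T j ≤ N → j ≤ J N := by
    intro N j h1
    exact Nat.le_findGreatest (le_trans (hTmono.id_le j) h1) h1
  have hGmono : ∀ N, Monotone (fun j => G j N) := fun N => monotone_nat_of_le_succ (fun j => hmono j N)
  refine ⟨fun N => ((J N : ℝ) + 1) * G (J N) N, ?_, ?_⟩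
  · rintro A hAS ⟨c, hc, hA⟩ M
    obtain ⟨N0, hN0⟩ := eventually_atTop.1 hA
    obtain ⟨j0, hj0⟩ := exists_nat_gt (1 / c)
    set j := max (max N0 M) j0 with hj
    have hjc : 1 / ((j : ℝ) + 1) ≤ c := by
      have h1 : (1 / c : ℝ) < (j : ℝ) + 1 := by
        have : (j0 : ℝ) ≤ j := by exact_mod_cast le_max_right _ _
        linarith
      rw [div_le_iff₀ (by positivity)]
      rw [div_lt_iff₀ hc] at h1
      linarith
    obtain ⟨n, hn⟩ := hE2 j (T j) A hAS (by
      intro N h1 h2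
      have hJN : J N = j := hJ N j h1 (by rw [hT]; omega)
      have hNN0 : N0 ≤ N := by
        have h3 : j ≤ T j := hTmono.id_le j
        have h4 : N0 ≤ j := le_trans (le_max_left _ _) (le_max_left _ _)
        omega
      have h5 := hN0 N hNN0
      simp only [hJN] at h5
      refine le_trans ?_ h5
      have hG := hpos j N
      have hj1 : (0 : ℝ) < (j : ℝ) + 1 := by positivity
      rw [div_le_div_iff₀ hG (by positivity)]
      have hs : 0 ≤ Real.sqrt (N : ℝ) := Real.sqrt_nonneg _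
      have : 1 / ((j : ℝ) + 1) ^ 2 * Real.sqrt N * (((j : ℝ) + 1) * G j N)
          = (1 / ((j : ℝ) + 1)) * (Real.sqrt N * G j N) := by
        field_simp
      rw [this]
      have h6 : c * Real.sqrt N * G j N = c * (Real.sqrt N * G j N) := by ring
      rw [h6]
      exact mul_le_mul_of_nonneg_right hjc (by positivity))
    refine ⟨n, ?_⟩
    have h4 : M ≤ j := le_trans (le_max_right _ _) (le_max_left _ _)
    omega
  · intro j
    rw [tendsto_atTop]
    intro b
    obtain ⟨m, hm⟩ := exists_nat_gt b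
    filter_upwards [eventually_ge_atTop (T (max j m))] with N hN
    have h1 : max j m ≤ J N := hJle N _ hN
    have h2 : G j N ≤ G (J N) N := hGmono N (le_trans (le_max_left _ _) h1)
    have h3 : (m : ℝ) ≤ (J N : ℝ) := by exact_mod_cast le_trans (le_max_right _ _) h1
    rw [le_div_iff₀ (hpos j N)]
    have h4 : b ≤ (J N : ℝ) + 1 := by linarith
    calc b * G j N ≤ ((J N : ℝ) + 1) * G j N :=
          mul_le_mul_of_nonneg_right h4 (hpos j N).le
      _ ≤ ((J N : ℝ) + 1) * G (J N) N := mul_le_mul_of_nonneg_left h2 (by positivity)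

/-- from the form `a_n ≤ C n²` to the counting form -/
lemma forces_one {S : Set ℕ} (h : ∀ A : Set ℕ, A ⊆ S → A.Infinite →
    (∃ C : ℝ, ∀ n : ℕ, (Nat.nth (fun a => a ∈ A) n : ℝ) ≤ C * ((n : ℝ) + 1) ^ 2) →
    ∀ M : ℕ, ∃ n : ℕ, M ≤ rep A n) : ForcesIn S (fun _ => 1) := by
  classical
  intro A hAS hD
  obtain ⟨c, hc, hA⟩ := hD
  obtain ⟨N0, hN0⟩ := eventually_atTop.1 hA
  have hinf : A.Infinite := by
    intro hfin
    obtain ⟨N1, hN1⟩ := exists_nat_gt (((A.ncard : ℝ) / c) ^ 2)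
    have h1 := hN0 (max N0 N1) (le_max_left _ _)
    have h2 : ((A ∩ Set.Icc 1 (max N0 N1)).ncard : ℝ) ≤ A.ncard := by
      exact_mod_cast Set.ncard_le_ncard Set.inter_subset_left hfin
    have h3 : (A.ncard : ℝ) / c < Real.sqrt ((max N0 N1 : ℕ) : ℝ) := by
      apply Real.lt_sqrt_of_sq_lt
      have : (N1 : ℝ) ≤ ((max N0 N1 : ℕ) : ℝ) := by exact_mod_cast le_max_right _ _
      linarith
    rw [div_lt_iff₀ hc] at h3
    rw [div_one] at h1
    nlinarith
  refine h A hAS hinf ⟨1 / c ^ 2 + N0, fun n => ?_⟩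
  set a := Nat.nth (fun a => a ∈ A) n with ha
  have hn1 : (1 : ℝ) ≤ ((n : ℝ) + 1) ^ 2 := by
    have : (1 : ℝ) ≤ (n : ℝ) + 1 := by
      have : (0 : ℝ) ≤ n := Nat.cast_nonneg n
      linarith
    nlinarith
  by_cases haN : a < N0
  · have h1 : (a : ℝ) ≤ N0 := by exact_mod_cast haN.le
    have h2 : (0 : ℝ) ≤ 1 / c ^ 2 * ((n : ℝ) + 1) ^ 2 := by positivity
    have h3 : (N0 : ℝ) ≤ N0 * ((n : ℝ) + 1) ^ 2 :=
      le_mul_of_one_le_right (Nat.cast_nonneg _) hn1
    nlinarith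
  · push Not at haN
    have h1 := hN0 a haN
    rw [div_one] at h1
    have h2 : (A ∩ Set.Icc 1 a).ncard ≤ n + 1 := by
      have h3 : A ∩ Set.Icc 1 a ⊆ ((Finset.range (a + 1)).filter (fun x => x ∈ A) : Finset ℕ) := by
        rintro x ⟨hx1, hx2, hx3⟩
        simp only [Finset.coe_filter, Finset.mem_range]
        exact ⟨by omega, hx1⟩
      have h4 := Set.ncard_le_ncard h3 (Finset.finite_toSet _)
      rw [Set.ncard_coe_finset] at h4
      have h5 : ((Finset.range (a + 1)).filter (fun x => x ∈ A)).card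
          = Nat.count (fun x => x ∈ A) (a + 1) := (Nat.count_eq_card_filter_range _ _).symm
      have h6 : Nat.count (fun x => x ∈ A) a = n :=
        Nat.count_nth_of_infinite (p := fun x => x ∈ A) hinf n
      have h7 : Nat.count (fun x => x ∈ A) (a + 1) ≤ n + 1 := by
        rw [Nat.count_succ, h6]
        split_ifs <;> omega
      omega
    have h3 : c * Real.sqrt a ≤ (n : ℝ) + 1 := le_trans h1 (by exact_mod_cast h2)
    have h4 : (c * Real.sqrt a) ^ 2 ≤ ((n : ℝ) + 1) ^ 2 :=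
      pow_le_pow_left₀ (by positivity) h3 2
    rw [mul_pow, Real.sq_sqrt (Nat.cast_nonneg a)] at h4
    have h5 : (a : ℝ) ≤ 1 / c ^ 2 * ((n : ℝ) + 1) ^ 2 := by
      rw [div_mul_eq_mul_div, one_mul, le_div_iff₀ (by positivity)]
      linarith
    have h6 : (0 : ℝ) ≤ N0 * ((n : ℝ) + 1) ^ 2 := by positivity
    nlinarith


/-- some `g → ∞` forces inside `S`, if the strong Erdős–Turán conjecture holds inside `S` -/
lemma exists_forcing {S : Set ℕ} (h : ∀ A : Set ℕ, A ⊆ S → A.Infinite →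
    (∃ C : ℕ, ∀ n ≥ 1, elt A n ≤ C * n ^ 2) → ∀ K : ℕ, ∃ n : ℕ, K < rep A n) :
    ∃ g : ℕ → ℝ, Tendsto g atTop atTop ∧ ForcesIn S g := by
  have h1 : ForcesIn S (fun _ => 1) := by
    refine forces_one ?_
    rintro A hAS hinf ⟨C, hC⟩ M
    have h0 : ∀ n ≥ 1, elt A n ≤ ⌈C⌉₊ * n ^ 2 := by
      intro n hn
      have h2 := hC (n - 1)
      rw [Nat.cast_sub hn] at h2
      push_cast at h2
      rw [sub_add_cancel] at h2
      have h3 : C * (n : ℝ) ^ 2 ≤ (⌈C⌉₊ : ℝ) * (n : ℝ) ^ 2 :=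
        mul_le_mul_of_nonneg_right (Nat.le_ceil C) (by positivity)
      have h4 : ((elt A n : ℕ) : ℝ) ≤ ((⌈C⌉₊ * n ^ 2 : ℕ) : ℝ) := by
        push_cast
        exact h2.trans h3
      exact_mod_cast h4
    obtain ⟨n, hn⟩ := h A hAS hinf ⟨⌈C⌉₊, h0⟩ M
    exact ⟨n, hn.le⟩
  obtain ⟨g, hg, hg'⟩ := diagonal (fun _ _ => 1) (fun _ _ => one_pos) (fun _ _ => le_refl _)
    (fun _ => h1)
  refine ⟨g, ?_, hg⟩
  simpa using hg' 0

open Classical in
/-- **Main result.** -/
theorem result :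
    -- 1. monochromatic sums and differences
    (∀ C K : ℕ, ∃ B : ℝ, 1 ≤ B ∧ ∀ A : Set ℕ, A.Infinite → (∀ n ≥ 1, elt A n ≤ C * n ^ 2) →
      (∀ n, rep A n ≤ K) → ∀ (k : ℕ) (χ : ℕ → Fin k),
        (∀ N : ℕ, Real.exp (B * (k : ℝ) ^ 2) ≤ N → Real.exp (-(B * (k : ℝ) ^ 2)) * N ≤
          (((Finset.Icc 1 N).filter
            (fun n => ∃ i : Fin k, 4 ≤ rep {a | a ∈ A ∧ χ a = i} n)).card : ℝ)) ∧
        ∀ l : ℕ, 1 ≤ l → ∀ N : ℕ, Real.exp (B * (k : ℝ) ^ 2 * l) ≤ N →
          Real.exp (-(B * (k : ℝ) ^ 2 * l)) * N ≤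
          (((Finset.Icc 1 N).filter
            (fun d => ∃ i : Fin k, l ≤ dif {a | a ∈ A ∧ χ a = i} N d)).card : ℝ)) ∧
    -- 2. a threshold `g → ∞` inside `S_1 ∪ ... ∪ S_k`
    (∀ (k : ℕ) (S : Fin k → Set ℕ), (FewSums S ∨ ∃ l, FewDifferences S l) →
      ∃ g : ℕ → ℝ, Tendsto g atTop atTop ∧ ForcesIn (⋃ i, S i) g) := by
  refine ⟨?_, ?_⟩
  · intro C K
    obtain ⟨B1, hB1, h1⟩ := Pool.Agent.Y940.ES.popular_sums C K
    obtain ⟨B2, hB2, h2⟩ := Pool.Agent.Y940.ES.popular C K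
    refine ⟨max B1 B2, hB1.trans (le_max_left _ _), ?_⟩
    intro A hA hC hr k χ
    refine ⟨?_, ?_⟩
    · intro N hN
      have hle : B1 * (k : ℝ) ^ 2 ≤ max B1 B2 * (k : ℝ) ^ 2 :=
        mul_le_mul_of_nonneg_right (le_max_left _ _) (by positivity)
      have h3 := h1 A hA hC hr k χ N ((Real.exp_le_exp.2 hle).trans hN)
      refine le_trans ?_ h3
      rw [mul_comm]
      exact mul_le_mul_of_nonneg_left (Real.exp_le_exp.2 (neg_le_neg hle)) (by positivity)
    · intro l hl N hN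
      have hle : B2 * ((k : ℝ) ^ 2 * (l : ℝ)) ≤ max B1 B2 * (k : ℝ) ^ 2 * l := by
        rw [mul_assoc]
        exact mul_le_mul_of_nonneg_right (le_max_right _ _) (by positivity)
      have h3 := h2 A hA hC hr k l hl χ N ((Real.exp_le_exp.2 hle).trans hN)
      rw [Pool.Agent.Y940.ES.pop_eq] at h3
      refine le_trans ?_ h3
      rw [mul_comm]
      exact mul_le_mul_of_nonneg_left (Real.exp_le_exp.2 (neg_le_neg hle)) (by positivity)
  · rintro k S (hS | ⟨l, hS⟩)
    · exact exists_forcing fun A hAS hinf hC K =>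
        Pool.Agent.Y940.ES.union_rep k S hS A hAS hinf hC K
    · exact exists_forcing fun A hAS hinf hC K =>
        Pool.Agent.Y940.ES.union_dif k l S hS A hAS hinf hC K

end Pool.Agent.Results.MP_491344_nt.SparselyRepresented
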