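import Pool.Agent.N472.SM.Main

/-!
# Density thresholds for sets whose sum membership problem is easy

`rep A n` is the number of ordered pairs of elements of `A` with sum `n`. The addition matrix of a
set `A` of natural numbers has the entries `[x + y ∈ A]`, `0 ≤ x, y ≤ N`, `x ≠ y`. It has margin at
least `ε` if there are vectors `u x`, `v y` in the unit ball of a Hilbert space of any dimension
with `⟨u x, v y⟩ ≥ a` if `x + y ∈ A` and `⟨u x, v y⟩ ≤ b` if `x + y ∉ A`, `a - b ≥ ε`. In the sum
membership problem one player has `x`, the other one has `y`, and they decide whether `x + y ∈ A`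
(`Decides (sumGraph A N) c`: with public coins, `c` bits, and error at most `1/3` for `x ≠ y`).

(1) If `rep A n ≤ R` for all `n`, then `|A ∩ [1, N]| ≤ C √N / (ε (log N)^(1/5))` for every `N`,
where `ε` is the margin and `C` depends only on `R`.

(2) If `rep A n ≤ R` for all `n`, then `|A ∩ [1, N]| ≤ C 2^c √N / (log N)^(1/5)` if the sum
membership problem is decided with `c` bits.

(3) So every `g` with `g(N) = o(ε(N) (log N)^(1/5))` forces unbounded representations inside the class
of the sets `A` whose addition matrix has margin at least `ε(N)` for infinitely many `N`, and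

(4) every `g` with `2^(c(N)) g(N) = o((log N)^(1/5))` forces unbounded representations inside the
class of the sets whose sum membership problem is decided with `c(N)` bits for infinitely many `N`.

Proof. Let `rep A ≤ R`. Choose a scale `M` with `|A ∩ [1, M)|⁴ / M` maximal; then the upper half of
`[1, M)` contains a good part of the elements, and `M` is not small. The matrix `B = [x + y ∈ A]`,
`x ≠ y < M`, has `O(√M)` ones in each row, and each diagonal entry of `B⁴` is at most the number
of solutions of `a + b = c + d` in elements of `A` below `2 M`, that is `O(R² M)`. So `B` has only `S`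
eigenvalues above `η √M`, where `S = O(η ^ (-4))`, and the entries of their eigenvectors are at most
`√(S / M)`. Divide the numbers below `M` into cells by rounding these eigenvectors. The average of
`B` over the products of the cells differs from `B` by `O(η √M)` in the operator norm, and it
hardly charges the ones of `B`. So `∑ B x y ⟨u x, v y⟩` is at the same time at least
`a ∑ B x y` and at most `b ∑ B x y` plus a small error.
-/

set_option autoImplicit false

open Filter

namespace Pool.Agent.Results.MP_491344_nt.SumMembershipProtocols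

open Pool.Agent.N472.SM Pool.Agent.N471.CC

theorem result :
    -- (1) margins
    (∀ R : ℕ, ∃ C : ℝ, 0 < C ∧ ∀ A : Set ℕ, (∀ n, rep A n ≤ R) →
      ∀ (N : ℕ) (ε : ℝ), 0 < ε → HasMargin A N ε →
        ((A ∩ Set.Icc 1 N).ncard : ℝ) * Real.log N ^ (1 / 5 : ℝ) ≤ C * Real.sqrt N / ε) ∧
    -- (2) randomised communication
    (∀ R : ℕ, ∃ C : ℝ, 0 < C ∧ ∀ A : Set ℕ, (∀ n, rep A n ≤ R) →
      ∀ N c : ℕ, Decides (sumGraph A N) c →
        ((A ∩ Set.Icc 1 N).ncard : ℝ) * Real.log N ^ (1 / 5 : ℝ) ≤ C * 2 ^ c * Real.sqrt N) ∧
    -- (3) thresholds for sets with large margin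
    (∀ g ε : ℕ → ℝ, (∀ᶠ N : ℕ in atTop, 0 < g N) → (∀ᶠ N : ℕ in atTop, 0 < ε N) →
      Tendsto (fun N : ℕ => g N / (ε N * Real.log N ^ (1 / 5 : ℝ))) atTop (nhds 0) →
      ∀ A : Set ℕ, Dense g A → (∃ᶠ N : ℕ in atTop, HasMargin A N (ε N)) →
        ∀ K : ℕ, ∃ n, K < rep A n) ∧
    -- (4) thresholds for sets with small randomised communication complexity
    (∀ (g : ℕ → ℝ) (c : ℕ → ℕ), (∀ᶠ N : ℕ in atTop, 0 < g N) →
      Tendsto (fun N : ℕ => 2 ^ c N * g N / Real.log N ^ (1 / 5 : ℝ)) atTop (nhds 0) →
      ∀ A : Set ℕ, Dense g A → (∃ᶠ N : ℕ in atTop, Decides (sumGraph A N) (c N)) →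
        ∀ K : ℕ, ∃ n, K < rep A n) := by
  refine ⟨margin_bound, ?_, threshold, ?_⟩
  · intro R
    obtain ⟨C, hC, h⟩ := margin_bound R
    refine ⟨3 * C, by positivity, ?_⟩
    intro A hA N c hdec
    have h1 := h A hA N (1 / (3 * 2 ^ c)) (by positivity) (decides_margin A N c hdec)
    refine h1.trans (le_of_eq ?_)
    field_simp
  · intro g c hg hlim A hA hdec K
    refine threshold g (fun N => 1 / (3 * 2 ^ c N)) hg (Eventually.of_forall fun N => by positivity)
      ?_ A hA (hdec.mono fun N h => decides_margin A N (c N) h) K
    have h1 := hlim.const_mul 3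
    rw [mul_zero] at h1
    refine h1.congr fun N => ?_
    rw [div_mul_eq_mul_div, one_mul, div_div_eq_mul_div]
    ring

end Pool.Agent.Results.MP_491344_nt.SumMembershipProtocols
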